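import Pool.Agent.Y223.G.Stm5

/-!
# G5-ETF: étale coordinates of a product of a finite family of linearly disjoint algebras
-/

set_option autoImplicit false
set_option linter.all false

namespace Pool.Agent.Y710.G

open Pool.Agent.Y223.G

/-- transport of étale coordinates along an equivalence of the index types -/
theorem etAt_equiv {O K : Type} [CommRing O] [Field K] [Algebra O K] {C : Subalgebra O K}
    {Q : Ideal C} {ι κ : Type} (e : κ ≃ ι) {v : ι → C} (h : EtAt C Q v) : EtAt C Q (v ∘ e) := by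
  obtain ⟨g, hg, h⟩ := h
  refine ⟨g, hg, ?_⟩
  have e1 : ((algebraMap C (Localization.Away g)).comp
      (MvPolynomial.aeval (v ∘ e) : MvPolynomial κ O →ₐ[O] C).toRingHom) =
      ((algebraMap C (Localization.Away g)).comp
      (MvPolynomial.aeval v : MvPolynomial ι O →ₐ[O] C).toRingHom).comp
      (MvPolynomial.renameEquiv O e).toRingEquiv.toRingHom := by
    rw [RingHom.comp_assoc]
    congr 1
    ext x
    · simp
    · simp
  rw [e1]
  exact RingHom.Etale.stableUnderComposition _ _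
    (RingHom.Etale.of_bijective (MvPolynomial.renameEquiv O e).bijective) h

theorem base {O K : Type} [CommRing O] [Field K] [Algebra O K]
    (hi : Function.Injective (algebraMap O K)) {C : Subalgebra O K} (hC : C = ⊥)
    {Q : Ideal C} [Q.IsPrime] {ι : Type} [IsEmpty ι] (v : ι → C) : EtAt C Q v := by
  subst hC
  refine ⟨1, (Ideal.ne_top_iff_one Q).1 (Ideal.IsPrime.ne_top inferInstance), ?_⟩
  apply RingHom.Etale.of_bijective
  have h1 : Function.Bijective (algebraMap (⊥ : Subalgebra O K)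
      (Localization.Away (1 : (⊥ : Subalgebra O K)))) := by
    have hm : Submonoid.powers (1 : (⊥ : Subalgebra O K)) ≤ IsUnit.submonoid _ := by
      rintro x ⟨n, rfl⟩
      simp [IsUnit.mem_submonoid_iff]
    have := (IsLocalization.atUnits (⊥ : Subalgebra O K)
      (Submonoid.powers (1 : (⊥ : Subalgebra O K)))
      (S := Localization.Away (1 : (⊥ : Subalgebra O K))) hm).bijective
    convert this using 1
    exact funext fun x => ((IsLocalization.atUnits (⊥ : Subalgebra O K)
      (Submonoid.powers (1 : (⊥ : Subalgebra O K)))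
      (S := Localization.Away (1 : (⊥ : Subalgebra O K))) hm).commutes x).symm
  have h2 : Function.Bijective (MvPolynomial.aeval v : MvPolynomial ι O →ₐ[O] (⊥ : Subalgebra O K)) := by
    constructor
    · intro p q hpq
      obtain ⟨a, rfl⟩ := MvPolynomial.C_surjective ι p
      obtain ⟨b, rfl⟩ := MvPolynomial.C_surjective ι q
      rw [MvPolynomial.aeval_C, MvPolynomial.aeval_C] at hpq
      have h3 := congrArg (Subtype.val) hpq
      exact congrArg _ (hi h3)
    · rintro ⟨y, hy⟩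
      obtain ⟨a, ha⟩ := Algebra.mem_bot.1 hy
      refine ⟨MvPolynomial.C a, ?_⟩
      rw [MvPolynomial.aeval_C]
      exact Subtype.ext ha
  exact h1.comp h2

theorem claim (hE : S_ETP) {O K : Type} [CommRing O] [Field K] [Algebra O K]
    (hi : Function.Injective (algebraMap O K)) {Ω : Type} (A : Ω → Subalgebra O K)
    (hld : ∀ (S : Finset Ω) (ω : Ω), ω ∉ S → (⨆ ω' ∈ S, A ω').LinearDisjoint (A ω))
    (ι : Ω → Type) [∀ ω, Finite (ι ω)] (u : ∀ ω, ι ω → A ω) (S : Finset Ω) :
    ∀ (C : Subalgebra O K) (hC : C = ⨆ ω' ∈ S, A ω') (hA : ∀ ω ∈ S, A ω ≤ C) (Q : Ideal C)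
      [Q.IsPrime], (∀ (ω) (h : ω ∈ S),
        EtAt (A ω) (Q.comap (Subalgebra.inclusion (hA ω h) : A ω →+* C)) (u ω)) →
      EtAt C Q (fun x : (ω : {ω // ω ∈ S}) × ι ω =>
        Subalgebra.inclusion (hA x.1 x.1.2) (u x.1 x.2)) := by
  classical
  induction S using Finset.induction_on with
  | empty =>
    intro C hC hA Q _ h
    haveI : IsEmpty ((ω : {ω // ω ∈ (∅ : Finset Ω)}) × ι ω) :=
      ⟨fun x => absurd x.1.2 (Finset.notMem_empty _)⟩
    refine base hi (by rw [hC]; simp) _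
  | insert ω S hω ih =>
    intro C hC hA Q _ h
    have hC' : C = (⨆ ω' ∈ S, A ω') ⊔ A ω := by
      rw [hC, Finset.iSup_insert, sup_comm]
    have hS : (⨆ ω' ∈ S, A ω') ≤ C := hC' ▸ le_sup_left
    have hω1 : A ω ≤ C := hA ω (Finset.mem_insert_self _ _)
    have hSA : ∀ ω' ∈ S, A ω' ≤ ⨆ ω' ∈ S, A ω' := fun ω' h' => le_iSup₂_of_le ω' h' le_rfl
    have h1 := ih (⨆ ω' ∈ S, A ω') rfl hSA
      (Q.comap (Subalgebra.inclusion hS : (⨆ ω' ∈ S, A ω' : Subalgebra O K) →+* C))
      (fun ω' h' => h ω' (Finset.mem_insert_of_mem h'))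
    have h2 := hE O K (⨆ ω' ∈ S, A ω') (A ω) C hC' hS hω1 (hld S ω hω) Q
      ((ω' : {ω' // ω' ∈ S}) × ι ω') (ι ω) _ (u ω) h1 (h ω (Finset.mem_insert_self _ _))
    let f : ((ω' : {ω' // ω' ∈ S}) × ι ω') ⊕ ι ω → (ω' : {ω' // ω' ∈ insert ω S}) × ι ω' :=
      Sum.elim (fun x => ⟨⟨x.1.1, Finset.mem_insert_of_mem x.1.2⟩, x.2⟩)
        (fun j => ⟨⟨ω, Finset.mem_insert_self _ _⟩, j⟩)
    have hf : Function.Bijective f := by
      constructor
      · rintro (⟨⟨a, ha⟩, i⟩ | j) (⟨⟨b, hb⟩, k⟩ | l) hab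
        · simp only [f, Sum.elim_inl, Sigma.mk.injEq, Subtype.mk.injEq] at hab
          obtain ⟨rfl, h3⟩ := hab
          rw [eq_of_heq h3]
        · exfalso
          simp only [f, Sum.elim_inl, Sum.elim_inr, Sigma.mk.injEq, Subtype.mk.injEq] at hab
          exact hω (hab.1 ▸ ha)
        · exfalso
          simp only [f, Sum.elim_inl, Sum.elim_inr, Sigma.mk.injEq, Subtype.mk.injEq] at hab
          exact hω (hab.1 ▸ hb)
        · simp only [f, Sum.elim_inr, Sigma.mk.injEq, true_and] at hab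
          rw [eq_of_heq hab]
      · rintro ⟨⟨a, ha⟩, i⟩
        by_cases hb : a = ω
        · subst hb
          exact ⟨Sum.inr i, rfl⟩
        · exact ⟨Sum.inl ⟨⟨a, (Finset.mem_insert.1 ha).resolve_left hb⟩, i⟩, rfl⟩
    have h3 := etAt_equiv (Equiv.ofBijective f hf).symm h2
    convert h3 using 1
    funext x
    obtain ⟨y, rfl⟩ := hf.2 x
    have e1 : (Equiv.ofBijective f hf).symm (f y) = y := (Equiv.ofBijective f hf).symm_apply_apply y
    rw [Function.comp_apply, e1]
    rcases y with y | j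
    · rfl
    · rfl

theorem t_ETF : S_ETP → S_ETF := by
  intro hE O K _ _ _ hi Ω _ A hld Q _ ι _ u h
  classical
  haveI := Fintype.ofFinite Ω
  have hC : (⨆ ω, A ω) = ⨆ ω' ∈ (Finset.univ : Finset Ω), A ω' := by simp
  have h1 := claim hE hi A hld ι u Finset.univ (⨆ ω, A ω) hC (fun ω _ => le_iSup A ω) Q
    (fun ω _ => h ω)
  let e : (ω : Ω) × ι ω ≃ (ω : {ω // ω ∈ (Finset.univ : Finset Ω)}) × ι ω :=
    { toFun := fun x => ⟨⟨x.1, Finset.mem_univ _⟩, x.2⟩
      invFun := fun x => ⟨x.1.1, x.2⟩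
      left_inv := fun x => rfl
      right_inv := fun x => rfl }
  have h2 := etAt_equiv e h1
  exact h2

end Pool.Agent.Y710.G
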